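import Pool.Agent.Helper69.EK.Stm

set_option autoImplicit false

/-! # EK, part BND: summable bounds of the derivatives of the tube potentials -/

namespace Pool.Agent.Helper69.EK

open Set Filter Topology Pool.Agent.Helper6K9.ES
open Pool.Agent.Helper6K9.EH (Prof Fam eX eY dst pt Tr mkFam Pv Shf S_PROF S_FLOW)
open scoped ContDiff

namespace BndL

/-- smooth, the derivatives of order at most `n` are bounded by `M` -/
def Bd (n : ℕ) (f : ℝ → ℝ) (M : ℝ) : Prop :=
  ContDiff ℝ ∞ f ∧ ∀ i : ℕ, i ≤ n → ∀ y, ‖iteratedFDeriv ℝ i f y‖ ≤ M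

theorem bd_of {n : ℕ} {g : ℝ → ℝ} (hg : ContDiff ℝ ∞ g)
    (h : ∀ i : ℕ, ∃ C, ∀ y, ‖iteratedFDeriv ℝ i g y‖ ≤ C) : ∃ M, Bd n g M := by
  choose C hC using h
  refine ⟨∑ i ∈ Finset.range (n + 1), C i, hg, fun i hi y => ?_⟩
  have h0 : ∀ j, 0 ≤ C j := fun j => (norm_nonneg _).trans (hC j 0)
  exact (hC i y).trans (Finset.single_le_sum (fun j _ => h0 j) (Finset.mem_range.mpr (by omega)))

theorem bd_compact (n : ℕ) {g : ℝ → ℝ} (hg : ContDiff ℝ ∞ g) (hc : HasCompactSupport g) :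
    ∃ M, Bd n g M := by
  apply bd_of hg
  intro i
  have h1 : Continuous (iteratedFDeriv ℝ i g) :=
    hg.continuous_iteratedFDeriv (by exact_mod_cast le_top)
  exact (hc.iteratedFDeriv i).exists_bound_of_continuous h1

theorem bd_periodic (n : ℕ) {g : ℝ → ℝ} (hg : ContDiff ℝ ∞ g) (hp : ∀ z, g (z + 1) = g z) :
    ∃ M, Bd n g M := by
  apply bd_of hg
  intro i
  have h1 : Continuous (iteratedFDeriv ℝ i g) :=
    hg.continuous_iteratedFDeriv (by exact_mod_cast le_top)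
  have hper : Function.Periodic (fun y => iteratedFDeriv ℝ i g y) 1 := by
    intro y
    have h2 := iteratedFDeriv_comp_add_right (𝕜 := ℝ) (f := g) i (1 : ℝ) y
    have h3 : (fun z => g (z + 1)) = g := funext hp
    rw [h3] at h2
    exact h2.symm
  obtain ⟨C, hC⟩ := (isCompact_Icc (a := (0 : ℝ)) (b := 1)).exists_bound_of_continuousOn
    h1.continuousOn
  refine ⟨C, fun y => ?_⟩
  have h4 := hper.sub_int_mul_eq (x := y) ⌊y⌋
  simp only [mul_one] at h4
  rw [← h4]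
  exact hC _ ⟨Int.fract_nonneg y, (Int.fract_lt_one y).le⟩

/-- the linear functional `a x₀ + b x₁ + c t` -/
noncomputable def lin (a b c : ℝ) : E 1 →L[ℝ] ℝ :=
  a • ((ContinuousLinearMap.proj (R := ℝ) (φ := fun _ : Fin 2 => ℝ) 0).comp
    (ContinuousLinearMap.fst ℝ (Q 1) ℝ)) +
  b • ((ContinuousLinearMap.proj (R := ℝ) (φ := fun _ : Fin 2 => ℝ) 1).comp
    (ContinuousLinearMap.fst ℝ (Q 1) ℝ)) + c • ContinuousLinearMap.snd ℝ (Q 1) ℝ

theorem lin_apply (a b c : ℝ) (p : E 1) : lin a b c p = a * p.1 0 + b * p.1 1 + c * p.2 := rfl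

theorem lin_norm (a b c : ℝ) : ‖lin a b c‖ ≤ |a| + |b| + |c| := by
  refine ContinuousLinearMap.opNorm_le_bound _ (by positivity) fun p => ?_
  have h1 : |p.1 0| ≤ ‖p‖ := (norm_le_pi_norm p.1 0).trans (norm_fst_le p)
  have h2 : |p.1 1| ≤ ‖p‖ := (norm_le_pi_norm p.1 1).trans (norm_fst_le p)
  have h3 : |p.2| ≤ ‖p‖ := norm_snd_le p
  rw [lin_apply, Real.norm_eq_abs]
  calc |a * p.1 0 + b * p.1 1 + c * p.2| ≤ |a * p.1 0| + |b * p.1 1| + |c * p.2| :=
        abs_add_three _ _ _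
    _ = |a| * |p.1 0| + |b| * |p.1 1| + |c| * |p.2| := by rw [abs_mul, abs_mul, abs_mul]
    _ ≤ |a| * ‖p‖ + |b| * ‖p‖ + |c| * ‖p‖ := by gcongr
    _ = _ := by ring

/-- `F` is smooth and its derivative of order `i ≤ n` is bounded by `A Λ^i`. -/
def Nb (n : ℕ) (F : E 1 → ℝ) (A Λ : ℝ) : Prop :=
  ContDiff ℝ ∞ F ∧ ∀ p, ∀ i : ℕ, i ≤ n → ‖iteratedFDeriv ℝ i F p‖ ≤ A * Λ ^ i

theorem Nb.comp {n : ℕ} {f : ℝ → ℝ} {M : ℝ} (hf : Bd n f M) {ℓ : E 1 →L[ℝ] ℝ} {Λ : ℝ}
    (hℓ : ‖ℓ‖ ≤ Λ) (d : ℝ) : Nb n (fun p => f (ℓ p + d)) M Λ := by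
  obtain ⟨h1, h2⟩ := hf
  have h3 : ContDiff ℝ ∞ fun z => f (z + d) := h1.comp (contDiff_id.add contDiff_const)
  refine ⟨h3.comp ℓ.contDiff, fun p i hi => ?_⟩
  have e1 : (fun p => f (ℓ p + d)) = (fun z => f (z + d)) ∘ ℓ := rfl
  rw [e1, ℓ.iteratedFDeriv_comp_right h3 p (by exact_mod_cast le_top)]
  refine (ContinuousMultilinearMap.norm_compContinuousLinearMap_le _ _).trans ?_
  rw [iteratedFDeriv_comp_add_right]
  have hM : 0 ≤ M := (norm_nonneg _).trans (h2 i hi (ℓ p + d))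
  have h4 : ∏ _j : Fin i, ‖ℓ‖ ≤ Λ ^ i := by
    rw [Finset.prod_const, Finset.card_univ, Fintype.card_fin]
    exact pow_le_pow_left₀ (norm_nonneg _) hℓ i
  exact mul_le_mul (h2 i hi _) h4 (Finset.prod_nonneg fun _ _ => norm_nonneg _) hM

theorem Nb.nonneg {n : ℕ} {F : E 1 → ℝ} {A Λ : ℝ} (h : Nb n F A Λ) : 0 ≤ A := by
  have := (norm_nonneg _).trans (h.2 0 0 (Nat.zero_le n))
  simpa using this

theorem Nb.mul {n : ℕ} {F G : E 1 → ℝ} {A B Λ : ℝ} (hF : Nb n F A Λ) (hG : Nb n G B Λ)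
    (hΛ : 0 ≤ Λ) : Nb n (fun p => F p * G p) (2 ^ n * (A * B)) Λ := by
  have hA := hF.nonneg
  have hB := hG.nonneg
  refine ⟨hF.1.mul hG.1, fun p i hi => ?_⟩
  have h := norm_iteratedFDeriv_mul_le (𝕜 := ℝ) (n := i) hF.1 hG.1 p (by exact_mod_cast le_top)
  refine h.trans ?_
  have h2 : ∀ k ∈ Finset.range (i + 1), (i.choose k : ℝ) * ‖iteratedFDeriv ℝ k F p‖ *
      ‖iteratedFDeriv ℝ (i - k) G p‖ ≤ (i.choose k : ℝ) * (A * B * Λ ^ i) := by
    intro k hk
    have hk' : k ≤ i := Nat.lt_succ_iff.1 (Finset.mem_range.1 hk)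
    rw [mul_assoc]
    refine mul_le_mul_of_nonneg_left ?_ (Nat.cast_nonneg _)
    calc ‖iteratedFDeriv ℝ k F p‖ * ‖iteratedFDeriv ℝ (i - k) G p‖
        ≤ (A * Λ ^ k) * (B * Λ ^ (i - k)) := mul_le_mul (hF.2 p k (hk'.trans hi))
          (hG.2 p (i - k) ((Nat.sub_le _ _).trans hi)) (norm_nonneg _) (by positivity)
      _ = A * B * (Λ ^ k * Λ ^ (i - k)) := by ring
      _ = A * B * Λ ^ i := by rw [← pow_add, Nat.add_sub_cancel' hk']
  refine (Finset.sum_le_sum h2).trans ?_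
  rw [← Finset.sum_mul]
  have h3 : ∑ k ∈ Finset.range (i + 1), (i.choose k : ℝ) ≤ 2 ^ n := by
    have : ∑ k ∈ Finset.range (i + 1), i.choose k = 2 ^ i := Nat.sum_range_choose i
    have h4 : ∑ k ∈ Finset.range (i + 1), (i.choose k : ℝ) = 2 ^ i := by exact_mod_cast this
    rw [h4]
    exact pow_le_pow_right₀ (by norm_num) hi
  calc (∑ k ∈ Finset.range (i + 1), (i.choose k : ℝ)) * (A * B * Λ ^ i) ≤
        2 ^ n * (A * B * Λ ^ i) := mul_le_mul_of_nonneg_right h3 (by positivity)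
    _ = _ := by ring

theorem Nb.const_mul {n : ℕ} {F : E 1 → ℝ} {A Λ : ℝ} (hF : Nb n F A Λ) {c : ℝ} (hc : 0 ≤ c) :
    Nb n (fun p => c * F p) (c * A) Λ := by
  refine ⟨contDiff_const.mul hF.1, fun p i hi => ?_⟩
  have h1 := iteratedFDeriv_const_smul_apply (𝕜 := ℝ) (i := i) (a := c) (f := F) (x := p)
    ((hF.1.contDiffAt).of_le (by exact_mod_cast le_top))
  have e : (fun p => c * F p) = c • F := rfl
  rw [e, h1, norm_smul, Real.norm_of_nonneg hc, mul_assoc]
  exact mul_le_mul_of_nonneg_left (hF.2 p i hi) hc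

/-! ## the sequences -/

theorem MM_ge (j : ℕ) : 8 ≤ MM j := by
  unfold MM
  have : (0 : ℝ) ≤ ((j / 3 : ℕ) : ℝ) := Nat.cast_nonneg _
  linarith

theorem MM_ge' (j : ℕ) : ((j : ℝ) + 1) / 3 ≤ MM j := by
  unfold MM
  have h : j ≤ 3 * (j / 3) + 2 := by omega
  have h2 : (j : ℝ) ≤ 3 * ((j / 3 : ℕ) : ℝ) + 2 := by exact_mod_cast h
  linarith

theorem summ (m : ℕ) : Summable fun j => ee j * MM j ^ m := by
  have h1 : Summable fun j : ℕ => ((2 * m + 4).factorial : ℝ) * 9 * (1 / ((j : ℝ) + 1) ^ 2) := by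
    apply Summable.mul_left
    have := (summable_nat_add_iff 1).mpr (Real.summable_one_div_nat_pow.mpr (by norm_num : 1 < 2))
    simpa using this
  refine Summable.of_nonneg_of_le (fun j => ?_) (fun j => ?_) h1
  · have := MM_ge j
    unfold ee
    positivity
  · have hM := MM_ge j
    have hM' := MM_ge' j
    set x := MM j with hx
    have hx0 : 0 < x := by linarith
    have hy : 0 < √x := Real.sqrt_pos.mpr hx0
    have h2 : √x ^ (2 * m + 4) / ((2 * m + 4).factorial : ℝ) ≤ Real.exp (√x) :=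
      Real.pow_div_factorial_le_exp _ hy.le _
    have h3 : √x ^ (2 * m + 4) = x ^ (m + 2) := by
      rw [show 2 * m + 4 = 2 * (m + 2) by ring, pow_mul, Real.sq_sqrt hx0.le]
    rw [h3] at h2
    have hf : (0 : ℝ) < ((2 * m + 4).factorial : ℝ) := by positivity
    have h4 : ee j * x ^ m ≤ ((2 * m + 4).factorial : ℝ) / x ^ 2 := by
      unfold ee
      rw [← hx, Real.exp_neg, inv_mul_eq_div, div_le_div_iff₀ (Real.exp_pos _) (by positivity)]
      rw [div_le_iff₀ hf] at h2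
      calc x ^ m * x ^ 2 = x ^ (m + 2) := by ring
        _ ≤ _ := by rw [mul_comm]; exact h2
    refine h4.trans ?_
    have hj : (0 : ℝ) < (j : ℝ) + 1 := by positivity
    have h5 : ((j : ℝ) + 1) ^ 2 / 9 ≤ x ^ 2 := by
      have : (((j : ℝ) + 1) / 3) ^ 2 ≤ x ^ 2 := pow_le_pow_left₀ (by positivity) hM' 2
      calc ((j : ℝ) + 1) ^ 2 / 9 = (((j : ℝ) + 1) / 3) ^ 2 := by ring
        _ ≤ _ := this
    calc ((2 * m + 4).factorial : ℝ) / x ^ 2 ≤ ((2 * m + 4).factorial : ℝ) / (((j : ℝ) + 1) ^ 2 / 9) :=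
          div_le_div_of_nonneg_left hf.le (by positivity) h5
      _ = _ := by field_simp

theorem ss_pos {u : ℝ} (hu : 0 < u) (j : ℕ) : 0 < ss u j := by
  have := MM_ge j
  unfold ss
  positivity

theorem ss_le {u : ℝ} (hu : 0 < u) (hu1 : u ≤ 1) (j : ℕ) : ss u j ≤ 1 := by
  have h := MM_ge j
  unfold ss
  rw [div_le_one (by positivity)]
  nlinarith

theorem ee_pos (j : ℕ) : 0 < ee j := Real.exp_pos _

theorem dd_pos (j : ℕ) : 0 < dd j := by
  unfold dd
  positivity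

theorem dd_le (j : ℕ) : dd j ≤ 1 := by
  unfold dd
  rw [div_le_one (by positivity)]
  have : (1 : ℝ) ≤ 2 ^ (j / 3) := one_le_pow₀ (by norm_num)
  linarith

theorem MM_sq (j : ℕ) : MM j ^ 2 ≤ 64 * 2 ^ (j / 3) := by
  unfold MM
  generalize j / 3 = i
  induction i with
  | zero => norm_num
  | succ i ih =>
    have h0 : (0 : ℝ) ≤ (i : ℝ) := Nat.cast_nonneg i
    have h1 : (64 : ℝ) * 2 ^ (i + 1) = 2 * (64 * 2 ^ i) := by ring
    rw [h1]
    push_cast
    calc ((i : ℝ) + 1 + 8) ^ 2 ≤ 2 * ((i : ℝ) + 8) ^ 2 := by nlinarith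
      _ ≤ _ := by linarith

end BndL

open BndL in
theorem bnd : S_BND := by
  intro κ b u χ cb β psi hu hu1 h
  obtain ⟨bs, b1, b0, cs, c0, xs, x0, pS, pp⟩ := h
  -- compact supports
  have hcβ : HasCompactSupport β := by
    apply HasCompactSupport.intro (isCompact_Icc (a := (-(3 / 2) : ℝ)) (b := 3 / 2))
    intro z hz
    by_contra hne
    exact hz (abs_le.mp (b0 z hne))
  have hcc : HasCompactSupport cb := by
    apply HasCompactSupport.intro (isCompact_Icc (a := (-1 : ℝ)) (b := 1))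
    intro z hz
    by_contra hne
    exact hz (abs_le.mp (c0 z hne).le)
  have hcχ : HasCompactSupport χ := by
    apply HasCompactSupport.intro (isCompact_Icc (a := (1 / 2 - 3 * u / 16 : ℝ)) (b := 1 / 2 + 3 * u / 16))
    intro z hz
    by_contra hne
    have := abs_le.mp (x0 z hne)
    exact hz ⟨by linarith [this.1], by linarith [this.2]⟩
  have hqs : ContDiff ℝ ∞ fun z : ℝ => z ^ 2 / 2 * β z := by
    have : ContDiff ℝ ∞ fun z : ℝ => z ^ 2 / 2 := by fun_prop
    exact this.mul bs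
  have hcq : HasCompactSupport fun z : ℝ => z ^ 2 / 2 * β z := hcβ.mul_left
  -- rewriting of the arguments
  have hη : ∀ j (p : E 1), eta u j (p.1 1) p.2 / ss u j =
      lin 0 (1 / ss u j) (-(u / ss u j)) p + (u * tau j - 1 / 2) / ss u j := by
    intro j p
    have := (ss_pos hu j).ne'
    rw [lin_apply]
    unfold eta
    field_simp
    ring
  have hχ' : ∀ (p : E 1), p.1 1 = lin 0 1 0 p + 0 := by
    intro p
    rw [lin_apply]
    ring
  have hc' : ∀ j (p : E 1), (p.2 - tau j) / dd j = lin 0 0 (1 / dd j) p + (-(tau j / dd j)) := by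
    intro j p
    rw [lin_apply]
    ring
  have hp' : ∀ j (p : E 1), p.1 0 - b * p.1 1 - hf j = lin 1 (-b) 0 p + (-hf j) := by
    intro j p
    rw [lin_apply]
    ring
  have hnη : ∀ j, ‖lin 0 (1 / ss u j) (-(u / ss u j))‖ ≤ 2 / ss u j := by
    intro j
    refine (lin_norm _ _ _).trans ?_
    have hs := ss_pos hu j
    rw [abs_zero, zero_add, abs_neg, abs_of_pos (by positivity), abs_of_pos (by positivity), ← add_div]
    gcongr
    linarith
  have hVS : ∀ n : ℕ, ∃ C : ℝ, 0 ≤ C ∧ ∀ j, Nb n (VS u χ β j) (ee j * ss u j ^ 2 * C) (2 / ss u j) := by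
    intro n
    obtain ⟨M1, hM1⟩ := bd_compact n hqs hcq
    obtain ⟨M2, hM2⟩ := bd_compact n xs hcχ
    refine ⟨2 ^ n * (M1 * M2), ?_, fun j => ?_⟩
    · have a1 : 0 ≤ M1 := (norm_nonneg _).trans (hM1.2 0 (Nat.zero_le n) 0)
      have a2 : 0 ≤ M2 := (norm_nonneg _).trans (hM2.2 0 (Nat.zero_le n) 0)
      positivity
    · have hs := ss_pos hu j
      have hs1 := ss_le hu hu1 j
      have k1 := Nb.comp hM1 (hnη j) ((u * tau j - 1 / 2) / ss u j)
      have k2 : Nb n (fun p => χ (lin 0 1 0 p + 0)) M2 (2 / ss u j) := by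
        apply Nb.comp hM2
        refine (lin_norm _ _ _).trans ?_
        rw [abs_zero, abs_one, zero_add, add_zero, le_div_iff₀ hs]
        linarith
      have k3 := (k1.mul k2 (by positivity)).const_mul (c := ee j * ss u j ^ 2)
        (by have := ee_pos j; positivity)
      have e : VS u χ β j = fun p => ee j * ss u j ^ 2 *
          ((fun z : ℝ => z ^ 2 / 2 * β z) (lin 0 (1 / ss u j) (-(u / ss u j)) p +
            (u * tau j - 1 / 2) / ss u j) * χ (lin 0 1 0 p + 0)) := by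
        funext p
        simp only [VS]
        rw [hη, ← hχ']
      rw [e]
      exact k3
  have hVK : ∀ n : ℕ, ∃ C D : ℝ, 0 ≤ C ∧ 0 ≤ D ∧ ∀ j, Nb n (VK κ b u cb β psi j) (aa κ j * C) (D / dd j) := by
    intro n
    obtain ⟨M1, hM1⟩ := bd_compact n bs hcβ
    obtain ⟨M2, hM2⟩ := bd_compact n cs hcc
    obtain ⟨M3, hM3⟩ := bd_periodic n pS (fun z => by simpa using pp z 1)
    have a1 : 0 ≤ M1 := (norm_nonneg _).trans (hM1.2 0 (Nat.zero_le n) 0)
    have a2 : 0 ≤ M2 := (norm_nonneg _).trans (hM2.2 0 (Nat.zero_le n) 0)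
    have a3 : 0 ≤ M3 := (norm_nonneg _).trans (hM3.2 0 (Nat.zero_le n) 0)
    refine ⟨2 ^ n * ((2 ^ n * (M1 * M2)) * M3), 16 / u + |b| + 1, by positivity, by positivity,
      fun j => ?_⟩
    have hs := ss_pos hu j
    have hd := dd_pos j
    have hd1 := dd_le j
    have h16 : 0 < 16 / u := by positivity
    have l1 : 2 / ss u j ≤ (16 / u + |b| + 1) / dd j := by
      have h1 : 2 / ss u j = 128 * MM j ^ 2 / u := by
        have := MM_ge j
        unfold ss
        field_simp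
        ring
      have h2 : 2 / ss u j ≤ (16 / u) / dd j := by
        rw [h1]
        have h3 := MM_sq j
        have h4 : 16 / u / dd j = 128 * (64 * 2 ^ (j / 3)) / u := by
          unfold dd
          field_simp
          ring
        rw [h4]
        gcongr
      refine h2.trans ?_
      gcongr
      linarith [abs_nonneg b]
    have k1 := Nb.comp hM1 ((hnη j).trans l1) ((u * tau j - 1 / 2) / ss u j)
    have k2 : Nb n (fun p => cb (lin 0 0 (1 / dd j) p + (-(tau j / dd j)))) M2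
        ((16 / u + |b| + 1) / dd j) := by
      apply Nb.comp hM2
      refine (lin_norm _ _ _).trans ?_
      rw [abs_zero, zero_add, zero_add, abs_of_pos (by positivity)]
      gcongr
      linarith [abs_nonneg b]
    have k3 : Nb n (fun p => psi (lin 1 (-b) 0 p + (-hf j))) M3 ((16 / u + |b| + 1) / dd j) := by
      apply Nb.comp hM3
      refine (lin_norm _ _ _).trans ?_
      rw [abs_one, abs_neg, abs_zero, add_zero, le_div_iff₀ hd]
      have : (1 + |b|) * dd j ≤ (1 + |b|) * 1 := by gcongr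
      linarith
    have k4 := ((k1.mul k2 (by positivity)).mul k3 (by positivity)).const_mul (c := aa κ j)
      (by unfold aa; have := ee_pos j; positivity)
    have e : VK κ b u cb β psi j = fun p => aa κ j *
        (β (lin 0 (1 / ss u j) (-(u / ss u j)) p + (u * tau j - 1 / 2) / ss u j) *
          cb (lin 0 0 (1 / dd j) p + (-(tau j / dd j))) * psi (lin 1 (-b) 0 p + (-hf j))) := by
      funext p
      simp only [VK]
      rw [hη, hc', hp']
    rw [e]
    exact k4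
  refine ⟨fun j => ?_, fun j => ?_, fun n => ?_, fun n hn => ?_⟩
  · obtain ⟨C, -, hC⟩ := hVS 0
    exact (hC j).1
  · obtain ⟨C, D, -, -, hC⟩ := hVK 0
    exact (hC j).1
  · obtain ⟨C, hC0, hC⟩ := hVS n
    refine ⟨fun j => C * (128 / u) ^ n * (ee j * MM j ^ (2 * n)), (summ (2 * n)).mul_left _, fun j p => ?_⟩
    refine ((hC j).2 p n le_rfl).trans ?_
    have hs := ss_pos hu j
    have hs1 := ss_le hu hu1 j
    have he := ee_pos j
    have hM := MM_ge j
    have h1 : 2 / ss u j = 128 / u * MM j ^ 2 := by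
      unfold ss
      field_simp
      ring
    rw [h1, mul_pow, ← pow_mul]
    have h2 : ss u j ^ 2 ≤ 1 := pow_le_one₀ hs.le hs1
    calc ee j * ss u j ^ 2 * C * ((128 / u) ^ n * MM j ^ (2 * n)) ≤
          ee j * 1 * C * ((128 / u) ^ n * MM j ^ (2 * n)) := by gcongr
      _ = _ := by ring
  · obtain ⟨C, D, hC0, hD0, hC⟩ := hVK n
    refine ⟨fun j => C * D ^ n * (ee j * MM j ^ 0), (summ 0).mul_left _, fun j p => ?_⟩
    refine ((hC j).2 p n le_rfl).trans ?_
    have he := ee_pos j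
    have hd := dd_pos j
    have hd1 := dd_le j
    unfold aa
    rw [div_pow]
    have h1 : dd j ^ κ = dd j ^ (κ - n) * dd j ^ n := by
      rw [← pow_add, Nat.sub_add_cancel hn]
    have h2 : dd j ^ (κ - n) ≤ 1 := pow_le_one₀ hd.le hd1
    have h3 : ee j * dd j ^ κ * C * (D ^ n / dd j ^ n) = ee j * C * D ^ n * dd j ^ (κ - n) := by
      rw [h1]
      field_simp
    rw [h3]
    calc ee j * C * D ^ n * dd j ^ (κ - n) ≤ ee j * C * D ^ n * 1 := by gcongr
      _ = _ := by ring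

end Pool.Agent.Helper69.EK
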