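import Pool.Agent.Helper69.EK.Stm

set_option autoImplicit false

/-! # EK, part POTA: the tube potentials -/

namespace Pool.Agent.Helper69.EK

open Set Filter Topology Pool.Agent.Helper6K9.ES
open Pool.Agent.Helper6K9.EH (Prof Fam eX eY dst pt Tr mkFam Pv Shf S_PROF S_FLOW)
open scoped ContDiff

namespace PotaL

theorem MM_ge (j : ℕ) : 8 ≤ MM j := by
  unfold MM
  have : (0 : ℝ) ≤ ((j / 3 : ℕ) : ℝ) := Nat.cast_nonneg _
  linarith

theorem ss_pos {u : ℝ} (hu : 0 < u) (j : ℕ) : 0 < ss u j := by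
  have := MM_ge j
  unfold ss
  positivity

theorem ss_le {u : ℝ} (hu : 0 < u) (j : ℕ) : ss u j ≤ u / 4096 := by
  have h := MM_ge j
  unfold ss
  apply div_le_div_of_nonneg_left hu.le (by norm_num)
  nlinarith

theorem MM_mono {i j : ℕ} (h : i ≤ j) : MM i ≤ MM j := by
  unfold MM
  have : i / 3 ≤ j / 3 := Nat.div_le_div_right h
  have : ((i / 3 : ℕ) : ℝ) ≤ ((j / 3 : ℕ) : ℝ) := by exact_mod_cast this
  linarith

theorem ss_anti {u : ℝ} (hu : 0 < u) {i j : ℕ} (h : i ≤ j) : ss u j ≤ ss u i := by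
  have h1 := MM_ge i
  have h2 := MM_mono h
  unfold ss
  apply div_le_div_of_nonneg_left hu.le (by positivity)
  nlinarith

theorem tau_succ (j : ℕ) : tau j - tau (j + 1) = 1 / (3 * MM j * (MM j + 1)) := by
  have h1 := MM_ge j
  rcases (by omega : j % 3 = 0 ∨ j % 3 = 1 ∨ j % 3 = 2) with h | h | h
  · have e1 : (j + 1) / 3 = j / 3 := by omega
    have e2 : (j + 1) % 3 = 1 := by omega
    have e3 : MM (j + 1) = MM j := by unfold MM; rw [e1]
    unfold tau
    rw [e3, e2, h]
    push_cast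
    field_simp
    ring
  · have e1 : (j + 1) / 3 = j / 3 := by omega
    have e2 : (j + 1) % 3 = 2 := by omega
    have e3 : MM (j + 1) = MM j := by unfold MM; rw [e1]
    unfold tau
    rw [e3, e2, h]
    push_cast
    field_simp
    ring
  · have e1 : (j + 1) / 3 = j / 3 + 1 := by omega
    have e2 : (j + 1) % 3 = 0 := by omega
    have e3 : MM (j + 1) = MM j + 1 := by
      unfold MM
      rw [e1]
      push_cast
      ring
    unfold tau
    rw [e3, e2, h]
    push_cast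
    field_simp
    ring

theorem tau_anti : Antitone tau := by
  apply antitone_nat_of_succ_le
  intro j
  have h := tau_succ j
  have h1 := MM_ge j
  have : 0 ≤ 1 / (3 * MM j * (MM j + 1)) := by positivity
  linarith

theorem tau_le (j : ℕ) : tau j ≤ 1 / 8 := by
  have h := MM_ge j
  unfold tau
  have h1 : 1 / MM j ≤ 1 / 8 := one_div_le_one_div_of_le (by norm_num) h
  have h2 : 0 ≤ ((j % 3 : ℕ) : ℝ) / (3 * MM j * (MM j + 1)) := by positivity
  linarith

theorem tau_pos (j : ℕ) : 0 ≤ tau j := by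
  have h := MM_ge j
  unfold tau
  have h2 : ((j % 3 : ℕ) : ℝ) ≤ 2 := by
    have : j % 3 ≤ 2 := by omega
    exact_mod_cast this
  have h3 : ((j % 3 : ℕ) : ℝ) / (3 * MM j * (MM j + 1)) ≤ 1 / MM j := by
    rw [div_le_div_iff₀ (by positivity) (by positivity)]
    nlinarith
  linarith

theorem gap {u : ℝ} (hu : 0 < u) {i j : ℕ} (hij : i < j) :
    3 * ss u i < u * (tau i - tau j) := by
  have h1 := MM_ge i
  have h2 : tau j ≤ tau (i + 1) := tau_anti hij
  have h3 := tau_succ i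
  have h4 : 1 / (3 * MM i * (MM i + 1)) ≤ tau i - tau j := by linarith
  have h5 : 3 * ss u i < u * (1 / (3 * MM i * (MM i + 1))) := by
    unfold ss
    rw [mul_one_div, mul_div_assoc', div_lt_div_iff₀ (by positivity) (by positivity)]
    have : 3 * (3 * MM i * (MM i + 1)) < 64 * MM i ^ 2 := by nlinarith
    nlinarith
  exact h5.trans_le (mul_le_mul_of_nonneg_left h4 hu.le)

theorem ee_pos (j : ℕ) : 0 < ee j := Real.exp_pos _

theorem dd_pos (j : ℕ) : 0 < dd j := by
  unfold dd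
  positivity

theorem dd_le (j : ℕ) : dd j ≤ 1 / 512 := by
  unfold dd
  apply one_div_le_one_div_of_le (by norm_num)
  have : (1 : ℝ) ≤ 2 ^ (j / 3) := one_le_pow₀ (by norm_num)
  linarith

variable {b u : ℝ} {χ cb β psi : ℝ → ℝ}

theorem suppS (hu : 0 < u) (h : Sh u χ cb β psi) {j : ℕ} {p : E 1}
    (hp : VS u χ β j p ≠ 0) : p ∈ Rg u j := by
  have hs := ss_pos hu j
  have h1 : β (eta u j (p.1 1) p.2 / ss u j) ≠ 0 := by
    intro h0
    apply hp
    simp [VS, h0]
  have h3 : χ (p.1 1) ≠ 0 := by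
    intro h0
    apply hp
    simp [VS, h0]
  have h2 := h.b0 _ h1
  rw [abs_div, abs_of_pos hs, div_le_iff₀ hs] at h2
  exact ⟨h2, h.x0 _ h3⟩

theorem suppK (κ : ℕ) (hu : 0 < u) (h : Sh u χ cb β psi) {j : ℕ} {p : E 1}
    (hp : VK κ b u cb β psi j p ≠ 0) : p ∈ Rg u j := by
  have hs := ss_pos hu j
  have h1 : β (eta u j (p.1 1) p.2 / ss u j) ≠ 0 := by
    intro h0
    apply hp
    simp [VK, h0]
  have h4 : cb ((p.2 - tau j) / dd j) ≠ 0 := by
    intro h0
    apply hp
    simp [VK, h0]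
  have h2 := h.b0 _ h1
  rw [abs_div, abs_of_pos hs, div_le_iff₀ hs] at h2
  refine ⟨h2, ?_⟩
  have h5 := h.c0 _ h4
  have hd := dd_pos j
  have hd1 := dd_le j
  rw [abs_div, abs_of_pos hd, div_lt_one hd] at h5
  have h6 : p.1 1 - 1 / 2 = eta u j (p.1 1) p.2 + u * (p.2 - tau j) := by unfold eta; ring
  rw [h6]
  refine (abs_add_le _ _).trans ?_
  rw [abs_mul, abs_of_pos hu]
  have h7 := ss_le hu j
  nlinarith [abs_nonneg (p.2 - tau j)]

theorem box (hu : 0 < u) (hu1 : u ≤ 1) {j : ℕ} {p : E 1} (hp : p ∈ Rg u j) :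
    p.1 1 ∈ Icc (5 / 16 : ℝ) (11 / 16) ∧ p.2 ∈ Icc (-1 / 4 : ℝ) (3 / 8) := by
  obtain ⟨h1, h2⟩ := hp
  have hs := ss_le hu j
  have ht := tau_le j
  have ht0 := tau_pos j
  have h3 : u * (p.2 - tau j) = (p.1 1 - 1 / 2) - eta u j (p.1 1) p.2 := by unfold eta; ring
  rw [abs_le] at h1 h2
  refine ⟨⟨by linarith [h2.1], by linarith [h2.2]⟩, ?_⟩
  have h4 : p.2 - tau j ≤ 27 / 128 := by
    by_contra hc
    have : u * (27 / 128) < u * (p.2 - tau j) := mul_lt_mul_of_pos_left (not_le.1 hc) hu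
    linarith [h1.1, h2.2]
  have h5 : -(27 / 128) ≤ p.2 - tau j := by
    by_contra hc
    have : u * (p.2 - tau j) < u * (-(27 / 128)) := mul_lt_mul_of_pos_left (not_le.1 hc) hu
    linarith [h1.2, h2.1]
  constructor <;> linarith

theorem closed (u : ℝ) (j : ℕ) : IsClosed (Rg u j) := by
  have hc1 : Continuous fun q : E 1 => q.1 1 := (continuous_apply 1).comp continuous_fst
  have hc2 : Continuous fun q : E 1 => eta u j (q.1 1) q.2 := by
    unfold eta
    exact (hc1.sub continuous_const).sub (continuous_const.mul (continuous_snd.sub continuous_const))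
  exact (isClosed_le hc2.abs continuous_const).inter
    (isClosed_le (hc1.sub continuous_const).abs continuous_const)

theorem disj' (hu : 0 < u) {i j : ℕ} (hij : i < j) {p : E 1} (h1 : p ∈ Rg u i) :
    p ∉ Rg u j := by
  rintro ⟨h2, -⟩
  have h3 := gap hu hij
  have h4 := ss_anti hu hij.le
  have h5 : u * (tau i - tau j) = eta u i (p.1 1) p.2 - eta u j (p.1 1) p.2 := by unfold eta; ring
  have h1' := abs_le.1 h1.1
  rw [abs_le] at h2
  linarith [h1'.2, h2.1]

theorem disj (hu : 0 < u) (i j : ℕ) (p : E 1) (hij : i ≠ j) (h1 : p ∈ Rg u i) :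
    p ∉ Rg u j := by
  rcases lt_or_gt_of_ne hij with h | h
  · exact disj' hu h h1
  · intro h2
    exact disj' hu h h2 h1

theorem nearS (hu : 0 < u) (h : Sh u χ cb β psi) {j : ℕ} {p : E 1}
    (hp : |eta u j (p.1 1) p.2| ≤ ss u j) : VS u χ β j =ᶠ[𝓝 p] fun q =>
      ee j * (eta u j (q.1 1) q.2 ^ 2 / 2) * χ (q.1 1) := by
  have hs := ss_pos hu j
  have hc1 : Continuous fun q : E 1 => q.1 1 := (continuous_apply 1).comp continuous_fst
  have hc2 : Continuous fun q : E 1 => eta u j (q.1 1) q.2 := by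
    unfold eta
    exact (hc1.sub continuous_const).sub (continuous_const.mul (continuous_snd.sub continuous_const))
  have o : IsOpen {q : E 1 | |eta u j (q.1 1) q.2| < 5 / 4 * ss u j} :=
    isOpen_lt hc2.abs continuous_const
  have hm : |eta u j (p.1 1) p.2| < 5 / 4 * ss u j := by linarith
  filter_upwards [o.mem_nhds hm] with q hq
  have hq : |eta u j (q.1 1) q.2| < 5 / 4 * ss u j := hq
  have h1 : β (eta u j (q.1 1) q.2 / ss u j) = 1 := by
    apply h.b1
    rw [abs_div, abs_of_pos hs, div_le_iff₀ hs]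
    exact hq.le
  unfold VS
  rw [h1]
  field_simp

theorem nearK (κ : ℕ) (hu : 0 < u) (h : Sh u χ cb β psi) {j : ℕ} {p : E 1}
    (hp : |eta u j (p.1 1) p.2| ≤ ss u j) : VK κ b u cb β psi j =ᶠ[𝓝 p] fun q =>
      aa κ j * (cb ((q.2 - tau j) / dd j) * psi (q.1 0 - b * q.1 1 - hf j)) := by
  have hs := ss_pos hu j
  have hc1 : Continuous fun q : E 1 => q.1 1 := (continuous_apply 1).comp continuous_fst
  have hc2 : Continuous fun q : E 1 => eta u j (q.1 1) q.2 := by
    unfold eta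
    exact (hc1.sub continuous_const).sub (continuous_const.mul (continuous_snd.sub continuous_const))
  have o : IsOpen {q : E 1 | |eta u j (q.1 1) q.2| < 5 / 4 * ss u j} :=
    isOpen_lt hc2.abs continuous_const
  have hm : |eta u j (p.1 1) p.2| < 5 / 4 * ss u j := by linarith
  filter_upwards [o.mem_nhds hm] with q hq
  have hq : |eta u j (q.1 1) q.2| < 5 / 4 * ss u j := hq
  have h1 : β (eta u j (q.1 1) q.2 / ss u j) = 1 := by
    apply h.b1
    rw [abs_div, abs_of_pos hs, div_le_iff₀ hs]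
    exact hq.le
  unfold VK
  rw [h1, one_mul]

/-- the derivative along a coordinate axis from a function of one variable -/
theorem dX_line {F G : E 1 → ℝ} {p : E 1} (hF : DifferentiableAt ℝ F p) (hFG : F =ᶠ[𝓝 p] G)
    (i : Fin (1 + 1)) {c : ℝ}
    (hG : HasDerivAt (fun s : ℝ => G (p + s • (Pi.single i 1, 0))) c 0) :
    fderiv ℝ F p (Pi.single i 1, 0) = c := by
  have h1 : HasFDerivAt F (fderiv ℝ F p) p := hF.hasFDerivAt
  have h2 : HasDerivAt (fun s : ℝ => p + s • ((Pi.single i 1, 0) : E 1)) (Pi.single i 1, 0) 0 := by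
    have := ((hasDerivAt_id (0 : ℝ)).smul_const ((Pi.single i 1, 0) : E 1)).const_add p
    simpa using this
  have h3 : HasFDerivAt F (fderiv ℝ F p) (p + (0 : ℝ) • ((Pi.single i 1, 0) : E 1)) := by
    rw [zero_smul, add_zero]; exact h1
  have h4 := h3.comp_hasDerivAt (0 : ℝ) h2
  have h5 : Tendsto (fun s : ℝ => p + s • ((Pi.single i 1, 0) : E 1)) (𝓝 0) (𝓝 p) := by
    have := h2.continuousAt.tendsto
    rwa [zero_smul, add_zero] at this
  have h6 : (fun s : ℝ => F (p + s • ((Pi.single i 1, 0) : E 1))) =ᶠ[𝓝 0]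
      fun s : ℝ => G (p + s • ((Pi.single i 1, 0) : E 1)) := h5.eventually hFG
  exact h4.unique (hG.congr_of_eventuallyEq h6)

theorem derivK0 (κ : ℕ) (hu : 0 < u) (h : Sh u χ cb β psi) {j : ℕ} {p : E 1}
    (hV : DifferentiableAt ℝ (VK κ b u cb β psi j) p) (hp : |eta u j (p.1 1) p.2| ≤ ss u j) :
    fderiv ℝ (VK κ b u cb β psi j) p (Pi.single 0 1, 0) = aa κ j * cb ((p.2 - tau j) / dd j) *
      deriv psi (p.1 0 - b * p.1 1 - hf j) := by
  refine dX_line hV (nearK κ hu h hp) 0 ?_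
  have hpsi : HasDerivAt psi (deriv psi (p.1 0 - b * p.1 1 - hf j))
      (p.1 0 - b * p.1 1 - hf j) :=
    ((h.pS.differentiable (by norm_num)) _).hasDerivAt
  have d0 : HasDerivAt (fun s : ℝ => p.1 0 + s - b * p.1 1 - hf j) 1 0 := by
    have := (((hasDerivAt_id (0 : ℝ)).const_add (p.1 0)).sub_const (b * p.1 1)).sub_const (hf j)
    simpa using this
  have d1 : HasDerivAt (fun s : ℝ => psi (p.1 0 + s - b * p.1 1 - hf j))
      (deriv psi (p.1 0 - b * p.1 1 - hf j) * 1) 0 := by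
    have hpsi' : HasDerivAt psi (deriv psi (p.1 0 - b * p.1 1 - hf j))
      ((fun s : ℝ => p.1 0 + s - b * p.1 1 - hf j) 0) := by simpa using hpsi
    exact hpsi'.comp (0 : ℝ) d0
  have d2 := (d1.const_mul (cb ((p.2 - tau j) / dd j))).const_mul (aa κ j)
  have e1 : ∀ s : ℝ, (p + s • ((Pi.single 0 1, 0) : E 1)).1 0 = p.1 0 + s := by intro s; simp
  have e2 : ∀ s : ℝ, (p + s • ((Pi.single 0 1, 0) : E 1)).1 1 = p.1 1 := by intro s; simp
  have e3 : ∀ s : ℝ, (p + s • ((Pi.single 0 1, 0) : E 1)).2 = p.2 := by intro s; simp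
  simp only [e1, e2, e3]
  refine d2.congr_deriv ?_
  ring

theorem derivK1 (κ : ℕ) (hu : 0 < u) (h : Sh u χ cb β psi) {j : ℕ} {p : E 1}
    (hV : DifferentiableAt ℝ (VK κ b u cb β psi j) p) (hp : |eta u j (p.1 1) p.2| ≤ ss u j) :
    fderiv ℝ (VK κ b u cb β psi j) p (Pi.single 1 1, 0) = -(b * (aa κ j *
      cb ((p.2 - tau j) / dd j) * deriv psi (p.1 0 - b * p.1 1 - hf j))) := by
  refine dX_line hV (nearK κ hu h hp) 1 ?_
  have hpsi : HasDerivAt psi (deriv psi (p.1 0 - b * p.1 1 - hf j))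
      (p.1 0 - b * p.1 1 - hf j) :=
    ((h.pS.differentiable (by norm_num)) _).hasDerivAt
  have dy : HasDerivAt (fun s : ℝ => p.1 1 + s) 1 0 := by
    simpa using (hasDerivAt_id (0 : ℝ)).const_add (p.1 1)
  have d0 : HasDerivAt (fun s : ℝ => p.1 0 - b * (p.1 1 + s) - hf j) (-b) 0 := by
    have := ((dy.const_mul b).const_sub (p.1 0)).sub_const (hf j)
    simpa using this
  have d1 : HasDerivAt (fun s : ℝ => psi (p.1 0 - b * (p.1 1 + s) - hf j))
      (deriv psi (p.1 0 - b * p.1 1 - hf j) * (-b)) 0 := by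
    have hpsi' : HasDerivAt psi (deriv psi (p.1 0 - b * p.1 1 - hf j))
      ((fun s : ℝ => p.1 0 - b * (p.1 1 + s) - hf j) 0) := by simpa using hpsi
    exact hpsi'.comp (0 : ℝ) d0
  have d2 := (d1.const_mul (cb ((p.2 - tau j) / dd j))).const_mul (aa κ j)
  have e1 : ∀ s : ℝ, (p + s • ((Pi.single 1 1, 0) : E 1)).1 0 = p.1 0 := by intro s; simp
  have e2 : ∀ s : ℝ, (p + s • ((Pi.single 1 1, 0) : E 1)).1 1 = p.1 1 + s := by intro s; simp
  have e3 : ∀ s : ℝ, (p + s • ((Pi.single 1 1, 0) : E 1)).2 = p.2 := by intro s; simp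
  simp only [e1, e2, e3]
  refine d2.congr_deriv ?_
  ring

theorem derivS1 (hu : 0 < u) (h : Sh u χ cb β psi) {j : ℕ} {p : E 1}
    (hV : DifferentiableAt ℝ (VS u χ β j) p) (hp : |eta u j (p.1 1) p.2| ≤ ss u j) :
    fderiv ℝ (VS u χ β j) p (Pi.single 1 1, 0) =
      ee j * (eta u j (p.1 1) p.2 * χ (p.1 1) +
        eta u j (p.1 1) p.2 ^ 2 / 2 * deriv χ (p.1 1)) := by
  refine dX_line hV (nearS hu h hp) 1 ?_
  have hχ : HasDerivAt χ (deriv χ (p.1 1)) (p.1 1) :=
    ((h.xs.differentiable (by norm_num)) _).hasDerivAt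
  have dy : HasDerivAt (fun s : ℝ => p.1 1 + s) 1 0 := by
    simpa using (hasDerivAt_id (0 : ℝ)).const_add (p.1 1)
  have d3 : HasDerivAt (fun s : ℝ => χ (p.1 1 + s)) (deriv χ (p.1 1) * 1) 0 := by
    have hχ' : HasDerivAt χ (deriv χ (p.1 1)) ((fun s : ℝ => p.1 1 + s) 0) := by simpa using hχ
    exact hχ'.comp (0 : ℝ) dy
  have d4 : HasDerivAt (fun s : ℝ => eta u j (p.1 1 + s) p.2) 1 0 := by
    unfold eta
    simpa using (dy.sub_const (1 / 2)).sub_const (u * (p.2 - tau j))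
  have d5 := ((d4.pow 2).div_const 2).const_mul (ee j)
  have d6 := d5.mul d3
  have e2 : ∀ s : ℝ, (p + s • ((Pi.single 1 1, 0) : E 1)).1 1 = p.1 1 + s := by intro s; simp
  have e3 : ∀ s : ℝ, (p + s • ((Pi.single 1 1, 0) : E 1)).2 = p.2 := by intro s; simp
  simp only [e2, e3]
  refine d6.congr_deriv ?_
  simp only [add_zero, Pi.pow_apply]
  push_cast
  ring

end PotaL

open PotaL in
theorem pota : S_POTA := by
  intro hSHA hBND hGLU κ b u ε hκ hu hu1 hε
  obtain ⟨χ, cb, β, psi, h, hshp⟩ := hSHA u hu hu1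
  obtain ⟨c1, c2, c3, c4⟩ := hBND κ b u χ cb β psi hu hu1 h
  have hκ1 : (1 : ℕ∞) ≤ (κ : ℕ∞) := by exact_mod_cast (by omega : 1 ≤ κ)
  obtain ⟨jS, hjS⟩ := hGLU ⊤ κ (VS u χ β) (Rg u) ε le_top le_top hε c1
    (fun j p hp => suppS hu h hp) (fun j p hp => box hu hu1 hp) (fun j => closed u j)
    (fun i j p => disj hu i j p)
    (fun j p n => by
      have e1 : (p + ((Pi.single 0 (n : ℝ), 0) : E 1)).1 1 = p.1 1 := by simp
      have e3 : (p + ((Pi.single 0 (n : ℝ), 0) : E 1)).2 = p.2 := by simp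
      unfold VS
      rw [e1, e3])
    (fun n _ => c3 n)
  obtain ⟨jK, hjK⟩ := hGLU κ κ (VK κ b u cb β psi) (Rg u) ε hκ1 le_rfl hε
    (fun j => (c2 j).of_le (by exact_mod_cast le_top))
    (fun j p hp => suppK κ hu h hp) (fun j p hp => box hu hu1 hp) (fun j => closed u j)
    (fun i j p => disj hu i j p)
    (fun j p n => by
      have e1 : (p + ((Pi.single 0 (n : ℝ), 0) : E 1)).1 1 = p.1 1 := by simp
      have e2 : (p + ((Pi.single 0 (n : ℝ), 0) : E 1)).1 0 = p.1 0 + n := by simp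
      have e3 : (p + ((Pi.single 0 (n : ℝ), 0) : E 1)).2 = p.2 := by simp
      unfold VK
      rw [e1, e2, e3, show p.1 0 + (n : ℝ) - b * p.1 1 - hf j = p.1 0 - b * p.1 1 - hf j + n by ring,
        h.pp])
    (fun n hn => c4 n (by exact_mod_cast hn))
  set j₀ := max (max jS jK) 1 with hj₀
  obtain ⟨S, s1, s2, s3, s4, s5, s6, s7⟩ := hjS j₀ (le_trans (le_max_left _ _) (le_max_left _ _))
  obtain ⟨K, k1, k2, k3, k4, k5, k6, -⟩ := hjK j₀ (le_trans (le_max_right _ _) (le_max_left _ _))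
  refine ⟨j₀, S, K, χ, deriv psi, cb, le_max_right _ _, hshp, ⟨s1, s2⟩, s3, ?_, k1, k2, k3, ?_, ?_⟩
  · apply s7
    intro j x x' y t
    rfl
  · intro x y t hy
    have a1 := s4 (pt x y t) hy
    have a2 := k4 (pt x y t) hy
    unfold dX
    rw [a1, a2]
    exact ⟨rfl, rfl, rfl⟩
  · intro j hj x y t hy het
    have p0 : (pt (x + b * y) y t).1 0 = x + b * y := rfl
    have p1 : (pt (x + b * y) y t).1 1 = y := rfl
    have p2 : (pt (x + b * y) y t).2 = t := rfl
    by_cases hyu : |y - 1 / 2| ≤ 3 * u / 16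
    · have hmem : pt (x + b * y) y t ∈ Rg u j := by
        refine ⟨?_, hyu⟩
        have := ss_pos hu j
        show |eta u j y t| ≤ _
        linarith
      have a1 := s6 j hj _ hmem
      have a2 := k6 j hj _ hmem
      have het' : |eta u j ((pt (x + b * y) y t).1 1) (pt (x + b * y) y t).2| ≤ ss u j := het
      have b1 := derivS1 hu h (((c1 j).differentiable (by norm_num)) (pt (x + b * y) y t)) het'
      have b2 := derivK0 κ hu h (((c2 j).differentiable (by norm_num)) (pt (x + b * y) y t)) het'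
      have b3 := derivK1 κ hu h (((c2 j).differentiable (by norm_num)) (pt (x + b * y) y t)) het'
      have e : x + b * y - b * y - hf j = x - hf j := by ring
      rw [p1, p2] at b1
      rw [p0, p1, p2, e] at b2 b3
      unfold dX
      rw [a1, a2, b1, b2, b3]
      exact ⟨rfl, rfl, by ring⟩
    · push Not at hyu
      have hno : ∀ (j : ℕ) (n : ℤ), j₀ ≤ j → ((pt (x + b * y) y t).1, (pt (x + b * y) y t).2 + (n : ℝ)) ∉
          Rg u j := by
        rintro j n - ⟨-, h2⟩
        exact absurd h2 (not_le.mpr hyu)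
      have a1 := s5 (pt (x + b * y) y t) hy hno
      have a2 := k5 (pt (x + b * y) y t) hy hno
      have hχ : χ =ᶠ[𝓝 y] fun _ => 0 := by
        have o : IsOpen {z : ℝ | 3 * u / 16 < |z - 1 / 2|} :=
          isOpen_lt continuous_const (continuous_id.sub continuous_const).abs
        filter_upwards [o.mem_nhds hyu] with z hz
        by_contra h0
        exact absurd (h.x0 z h0) (not_le.mpr hz)
      have hχ0 : χ y = 0 := hχ.eq_of_nhds
      have hχ1 : deriv χ y = 0 := by
        rw [hχ.deriv_eq]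
        simp
      have hcb : cb ((t - tau j) / dd j) = 0 := by
        by_contra h0
        have h5 := h.c0 _ h0
        have hd := dd_pos j
        have hd1 := dd_le j
        rw [abs_div, abs_of_pos hd, div_lt_one hd] at h5
        have h6 : y - 1 / 2 = eta u j y t + u * (t - tau j) := by unfold eta; ring
        rw [h6] at hyu
        have h7 := abs_add_le (eta u j y t) (u * (t - tau j))
        rw [abs_mul, abs_of_pos hu] at h7
        have h8 := ss_le hu j
        nlinarith [abs_nonneg (t - tau j)]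
      unfold dX
      rw [a1, a2, hχ0, hχ1, hcb]
      simp

end Pool.Agent.Helper69.EK
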